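import Pool.Agent.Helper48.OD.St

/-! Project OD (MP_b3ce06_al), module KSG: the elements of class `K4` form a subgroup. -/

set_option autoImplicit false

namespace Pool.Agent.Helper15.OD

open Pool.Agent.Helper43.GD Pool.Agent.Helper48.OD

private theorem choose3 {α : Type} (a b c p q : α) (hab : a ≠ b) (hac : a ≠ c) (hbc : b ≠ c) :
    ∃ x, (x = a ∨ x = b ∨ x = c) ∧ x ≠ p ∧ x ≠ q := by
  by_cases h1 : a = p
  · by_cases h2 : b = q
    · refine ⟨c, Or.inr (Or.inr rfl), fun h => hac (h1.trans h.symm), fun h => hbc (h2.trans h.symm)⟩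
    · exact ⟨b, Or.inr (Or.inl rfl), fun h => hab (h1.trans h.symm), h2⟩
  · by_cases h2 : a = q
    · by_cases h3 : b = p
      · exact ⟨c, Or.inr (Or.inr rfl), fun h => hbc (h3.trans h.symm),
          fun h => hac (h2.trans h.symm)⟩
      · exact ⟨b, Or.inr (Or.inl rfl), h3, fun h => hab (h2.trans h.symm)⟩
    · exact ⟨a, Or.inl rfl, h1, h2⟩

private theorem neg_ne {L : Type} [CommRing L] (hn : Nontrivial L) (h2 : IsUnit (2 : L)) :
    (-1 : Lˣ) ≠ 1 := by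
  intro h
  have h1 : ((-1 : Lˣ) : L) = ((1 : Lˣ) : L) := by rw [h]
  rw [Units.val_neg, Units.val_one] at h1
  have h3 : (2 : L) = 0 := by
    linear_combination (-1 : L) * h1
  rw [h3] at h2
  exact not_isUnit_zero h2

theorem hKSG (hP : StPRD) : StKSG := by
  intro L A _ _ Q hC
  have hfin : Finite L := hC.fin
  have hn1 : (-1 : Lˣ) ≠ 1 := neg_ne hC.nt hC.two
  have hev1 : ¬ Ev (1 : Lˣ) := by
    rintro ⟨m, hm⟩
    rw [one_pow] at hm
    exact hn1 hm.symm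
  obtain ⟨θ, hθ, hθ2⟩ := hC.th
  have hTθ : Tw θ := ⟨2, by
    have : θ ^ (2 ^ 2) = (θ ^ 2) ^ 2 := by rw [← pow_mul]; norm_num
    rw [this, hθ2]
    simp⟩
  refine ⟨⟨Q.U.one_mem, ?_⟩, ⟨Q.neg, ?_⟩, ?_, ?_⟩
  · intro ζ hζ hT hE
    rw [mul_one] at hE ⊢
    refine hC.z2 ζ hζ hT ?_
    rintro rfl
    exact hev1 hE
  · intro ζ hζ hT hE
    refine hC.z2 _ (Q.U.mul_mem hζ Q.neg) (hT.mul Tw.neg_one) ?_
    intro h
    rw [h] at hE
    exact hev1 hE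
  · intro y₁ y₂ h₁ h₂
    refine ⟨Q.U.mul_mem h₁.1 h₂.1, ?_⟩
    intro ζ hζ hT hE
    obtain ⟨i₁, j₁, hi₁, hj₁, e₁⟩ := decomp y₁
    obtain ⟨i₂, j₂, hi₂, hj₂, e₂⟩ := decomp y₂
    have hθ1 : θ ≠ 1 := by
      rintro rfl
      rw [one_pow] at hθ2
      exact hn1 hθ2.symm
    have hθn : (-1 : Lˣ) ≠ θ := by
      rintro rfl
      apply hn1
      rw [← hθ2]
      simp
    obtain ⟨x, hx, hx1, hx2⟩ := choose3 (1 : Lˣ) (-1) θ (y₁ ^ i₁)⁻¹ (ζ * y₂ ^ i₂)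
      hn1.symm hθ1.symm hθn
    have hxU : x ∈ Q.U := by
      rcases hx with rfl | rfl | rfl
      · exact Q.U.one_mem
      · exact Q.neg
      · exact hθ
    have hxT : Tw x := by
      rcases hx with rfl | rfl | rfl
      · exact Tw.one
      · exact Tw.neg_one
      · exact hTθ
    have hE1 : Ev (x * y₁) := by
      have h1 : x * y₁ ^ i₁ ≠ 1 := fun h => hx1 (mul_eq_one_iff_eq_inv.1 h)
      have h2 := hC.ui.ev_of_tw (Q.U.mul_mem hxU (Q.U.pow_mem h₁.1 i₁)) (hxT.mul hi₁) h1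
      have h3 := h2.mul_od hj₁
      rwa [mul_assoc, e₁] at h3
    have hE2 : Ev (ζ * x⁻¹ * y₂) := by
      have h1 : ζ * x⁻¹ * y₂ ^ i₂ ≠ 1 := by
        intro h
        apply hx2
        have : ζ * y₂ ^ i₂ = x * (ζ * x⁻¹ * y₂ ^ i₂) := by
          rw [mul_comm ζ x⁻¹, mul_assoc x⁻¹, mul_inv_cancel_left]
        rw [this, h, mul_one]
      have h2 := hC.ui.ev_of_tw (Q.U.mul_mem (Q.U.mul_mem hζ (Q.U.inv_mem hxU))
        (Q.U.pow_mem h₂.1 i₂)) ((hT.mul hxT.inv).mul hi₂) h1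
      have h3 := h2.mul_od hj₂
      rwa [mul_assoc, e₂] at h3
    have e3 : x * y₁ * (ζ * x⁻¹ * y₂) = ζ * (y₁ * y₂) := by
      have : x * y₁ * (ζ * x⁻¹ * y₂) = (x * x⁻¹) * (ζ * (y₁ * y₂)) := by
        rw [mul_comm ζ x⁻¹]
        simp only [mul_assoc, mul_left_comm]
      rw [this, mul_inv_cancel, one_mul]
    have hg1 := h₁.2 x hxU hxT hE1
    have hg2 := h₂.2 (ζ * x⁻¹) (Q.U.mul_mem hζ (Q.U.inv_mem hxU)) (hT.mul hxT.inv) hE2
    have := hP L A Q (x * y₁) (ζ * x⁻¹ * y₂) hC hg1 hg2 hE1 hE2 (by rw [e3]; exact hE)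
    rwa [e3] at this
  · intro y hy
    refine ⟨Q.U.inv_mem hy.1, ?_⟩
    intro ζ hζ hT hE
    have e : ζ * y⁻¹ = (ζ⁻¹ * y)⁻¹ := by rw [mul_inv, inv_inv]
    have hE' : Ev (ζ⁻¹ * y) := by
      have := hE.inv
      rwa [e, inv_inv] at this
    rw [e]
    exact Gd.inv Q (hy.2 ζ⁻¹ (Q.U.inv_mem hζ) hT.inv hE')

end Pool.Agent.Helper15.OD
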