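import Pool.Agent.Helper95.OD.St

set_option autoImplicit false

namespace Pool.Agent.Helper15.OD

open Pool.Agent.Helper95.OD Finset
open scoped Classical

theorem hTT : TT := by
  intro m r k T hr hk
  have hfib : ∀ i : Fin m, (T.filter (fun v => v.1 = i)).card ≤ r := by
    intro i
    calc (T.filter (fun v => v.1 = i)).card ≤ (univ : Finset (Fin r)).card := by
          refine card_le_card_of_injOn (fun v => v.2) (fun _ _ => mem_univ _) ?_
          intro u hu v hv huv
          simp only [coe_filter, Set.mem_setOf_eq] at hu hv
          exact Prod.ext (hu.2.trans hv.2.symm) huv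
      _ = r := by simp
  have hex : ∀ i : Fin m, ∃ S ⊆ T.filter (fun v => v.1 = i),
      S.card = min (T.filter (fun v => v.1 = i)).card (r / 16) := fun i =>
    exists_subset_card_eq (min_le_left _ _)
  choose S hS hSc using hex
  set U : Finset (Vx m r) := univ.biUnion S with hU
  have hSU : ∀ i, U.filter (fun v => v.1 = i) = S i := by
    intro i
    ext v
    simp only [hU, mem_filter, mem_biUnion, mem_univ, true_and]
    constructor
    · rintro ⟨⟨j, hj⟩, hv⟩
      have := (mem_filter.1 (hS j hj)).2
      rw [hv] at this
      rwa [this]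
    · intro hv
      exact ⟨⟨i, hv⟩, (mem_filter.1 (hS i hv)).2⟩
  have hUT : U ⊆ T := by
    intro v hv
    simp only [hU, mem_biUnion, mem_univ, true_and] at hv
    obtain ⟨j, hj⟩ := hv
    exact (mem_filter.1 (hS j hj)).1
  have hcT : T.card = ∑ i : Fin m, (T.filter (fun v => v.1 = i)).card :=
    card_eq_sum_card_fiberwise (fun _ _ => mem_univ _)
  have hcU : U.card = ∑ i : Fin m, (S i).card := by
    rw [card_eq_sum_card_fiberwise (f := fun v : Vx m r => v.1) (t := univ) (fun _ _ => mem_univ _)]
    exact sum_congr rfl fun i _ => by rw [hSU]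
  have h32 : T.card ≤ 32 * U.card := by
    rw [hcT, hcU, mul_sum]
    refine sum_le_sum fun i _ => ?_
    rw [hSc]
    have := hfib i
    rcases le_total (T.filter (fun v => v.1 = i)).card (r / 16) with h | h
    · rw [min_eq_left h]; omega
    · rw [min_eq_right h]; omega
  obtain ⟨T', hT', hc⟩ := exists_subset_card_eq (s := U) (n := k) (by omega)
  refine ⟨T', hT'.trans hUT, ?_, hc⟩
  intro i
  have h1 : (T'.filter (fun v => v.1 = i)).card ≤ (S i).card := by
    rw [← hSU]
    exact card_le_card (filter_subset_filter _ hT')
  have h2 : (S i).card ≤ r / 16 := by rw [hSc]; exact min_le_right _ _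
  omega

end Pool.Agent.Helper15.OD
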